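import Mathlib

/-!
The Bergman property of the polymorphism clones of the rational Urysohn space (fails), the
rational Urysohn sphere (holds) and the ordered rationals (holds).
-/

open Finset

namespace Pool.Agent.Results.MP_c74e51_al.Bergman

/-- operations of arity `n + 1` -/
abbrev Op (A : Type) (n : ℕ) := (Fin (n + 1) → A) → A

/-- sets of operations of positive arity, sorted by arity -/
abbrev Ops (A : Type) := (n : ℕ) → Set (Op A n)

variable {A : Type}

def IsClone (F : Ops A) : Prop :=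
  (∀ n i, (fun x => x i) ∈ F n) ∧ ∀ n m (f : Op A n) (g : Fin (n + 1) → Op A m), f ∈ F n →
    (∀ i, g i ∈ F m) → (fun x => f fun i => g i x) ∈ F m

/-- `F` is the smallest clone containing `H` -/
def Generates (H F : Ops A) : Prop :=
  IsClone F ∧ (∀ n, H n ⊆ F n) ∧ ∀ F', IsClone F' → (∀ n, H n ⊆ F' n) → ∀ n, F n ⊆ F' n

/-- `H^[k+1,i]` -/
def Depth (H : Ops A) (k : ℕ) : ℕ → Set (Op A k)
  | 0 => {f | ∃ i, f = fun x => x i}
  | i + 1 => {h | ∃ (n : ℕ) (f : Op A n) (g : Fin (n + 1) → Op A k), f ∈ H n ∧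
      (∀ j, g j ∈ Depth H k i) ∧ h = fun x => f fun j => g j x} ∪ Depth H k i

def HasBergman (F : Ops A) : Prop := ∀ H, Generates H F → ∀ k, ∃ n, Depth H k n = F k

/-- polymorphisms of a metric space (the product carries the maximum metric) -/
def PolM (X : Type) [MetricSpace X] : Ops X := fun _ => {f | ∀ x y, dist (f x) (f y) ≤ dist x y}

/-- polymorphisms of `(ℚ, ≤)` -/
def PolQ : Ops ℚ := fun _ => {f | Monotone f}

/-- `X` is the Fraisse limit of the finite metric spaces with distances in `D` -/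
def IsFraisse (X : Type) [MetricSpace X] (D : Set ℝ) : Prop :=
  Countable X ∧ (∀ x y : X, dist x y ∈ D) ∧
  (∀ (Y : Type) [Finite Y] [MetricSpace Y], (∀ x y : Y, dist x y ∈ D) →
    ∃ e : Y → X, Isometry e) ∧
  ∀ (s : Finset X) (f : X → X), (∀ a ∈ s, ∀ b ∈ s, dist (f a) (f b) = dist a b) →
    ∃ φ : X ≃ᵢ X, ∀ a ∈ s, φ a = f a

lemma D_mono {H : Ops A} {k a b : ℕ} (h : a ≤ b) : Depth H k a ⊆ Depth H k b := by
  induction h with
  | refl => exact subset_rfl
  | step _ ih => exact ih.trans Set.subset_union_right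

lemma D_comp {H : Ops A} {m b : ℕ} (a : ℕ) : ∀ {n : ℕ} {f : Op A n} {g : Fin (n + 1) → Op A m},
    f ∈ Depth H n a → (∀ i, g i ∈ Depth H m b) → (fun x => f fun i => g i x) ∈ Depth H m (b + a) := by
  induction a with
  | zero => rintro n f g ⟨i, rfl⟩ hg; exact hg i
  | succ a ih =>
    rintro n f g (⟨l, f', g', h1, h2, rfl⟩ | h) hg
    · exact Or.inl ⟨l, f', _, h1, fun j => ih (h2 j) hg, rfl⟩
    · exact Or.inr (ih h hg)

def un (u : A → A) : Op A 0 := fun x => u (x 0)

lemma D_un {H : Ops A} {m a b : ℕ} {u : A → A} {g : Op A m} (hu : un u ∈ Depth H 0 a)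
    (hg : g ∈ Depth H m b) : (fun x => u (g x)) ∈ Depth H m (b + a) :=
  D_comp a (g := fun _ => g) hu fun _ => hg

lemma D_iter {H : Ops A} {m C : ℕ} {u : A → A} {g : Op A m} (hu : un u ∈ Depth H 0 C)
    (hg : g ∈ Depth H m C) (i : ℕ) : (fun x => u^[i] (g x)) ∈ Depth H m (C * (i + 1)) := by
  induction i with
  | zero => simpa using hg
  | succ i ih =>
    simp only [Function.iterate_succ_apply']
    exact D_un hu ih

lemma berg {F : Ops A} (h : ∀ k (f : ℕ → Op A k), (∀ i, f i ∈ F k) → ∀ H : Ops A,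
    (∀ n, ∀ g ∈ F n, ∃ c, g ∈ Depth H n c) → ∃ C, ∀ i, f i ∈ Depth H k (C * (i + 2))) :
    HasBergman F := by
  rintro H ⟨h1, h2, h3⟩ k
  have s1 : ∀ n, Depth H k n ⊆ F k := by
    intro n
    induction n with
    | zero => rintro _ ⟨i, rfl⟩; exact h1.1 _ i
    | succ n ih =>
      rintro _ (⟨l, f, g, a, b, rfl⟩ | c)
      · exact h1.2 _ _ f g (h2 _ a) fun j => ih (b j)
      · exact ih c
  have s2 := h3 (fun n => {g | ∃ c, g ∈ Depth H n c}) ⟨fun n i => ⟨0, i, rfl⟩, ?_⟩
    fun n f hf => ⟨1, Or.inl ⟨n, f, fun j x => x j, hf, fun j => ⟨j, rfl⟩, rfl⟩⟩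
  · by_contra c
    have : ∀ n, ∃ f ∈ F k, f ∉ Depth H k n := fun n =>
      Set.not_subset.1 fun d => c ⟨n, (s1 n).antisymm d⟩
    choose f f1 f2 using this
    obtain ⟨C, hC⟩ := h k (fun i => f (i * (i + 2))) (fun i => f1 _) H s2
    exact f2 _ (hC C)
  · rintro n m f g ⟨a, ha⟩ hg
    choose c hc using hg
    exact ⟨_, D_comp a ha fun i => D_mono (le_sup (f := c) (mem_univ i)) (hc i)⟩

/-! ### The ordered rationals -/

def GQ {k : ℕ} (f : ℕ → Op ℚ k) (x : Fin (k + 1) → ℚ) (a b : ℕ) : ℚ :=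
  (range (a + 1)).sup' (by simp) fun j => (Icc j (max j b)).inf' (by simp) fun i => f i x

lemma GQ_diag {k : ℕ} (f : ℕ → Op ℚ k) (x : Fin (k + 1) → ℚ) (a : ℕ) : GQ f x a a = f a x := by
  refine le_antisymm (sup'_le _ _ fun j hj => inf'_le _ ?_)
    (le_sup'_of_le _ (self_mem_range_succ a) (by simp))
  simp only [mem_range, mem_Icc] at hj ⊢
  omega

lemma GQ_mono {k : ℕ} {f : ℕ → Op ℚ k} (hf : ∀ i, Monotone (f i)) {x y : Fin (k + 1) → ℚ}
    {a b a' b' : ℕ} (h : x ≤ y) (ha : a ≤ a') (hb : b' ≤ b) : GQ f x a b ≤ GQ f y a' b' := by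
  refine sup'_le _ _ fun j hj => le_sup'_of_le _ (b := j) ?_ (le_inf' _ _ fun i hi =>
    inf'_le_of_le _ (b := i) ?_ (hf i h))
  · simp only [mem_range] at hj ⊢; omega
  · simp only [mem_Icc] at hi ⊢; omega

theorem bergQ : HasBergman PolQ := by
  refine berg fun k f hf H hH => ?_
  obtain ⟨c1, h1⟩ := hH (k + 2) (fun y => GQ f (fun j => y j.succ.succ) ⌊y 0⌋₊ ⌈-y 1⌉₊)
    fun y z h => GQ_mono hf (fun j => h _) (Nat.floor_mono (h 0))
      (Nat.ceil_mono (neg_le_neg (h 1)))
  obtain ⟨c2, h2⟩ := hH 0 (un fun t => t + 1) fun y z h => add_le_add_left (h 0) 1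
  obtain ⟨c3, h3⟩ := hH 0 (un fun t => t - 1) fun y z h => sub_le_sub_right (h 0) 1
  obtain ⟨c4, h4⟩ := hH k (fun _ => 0) fun y z h => le_rfl
  refine ⟨c1 + c2 + c3 + c4, fun i => ?_⟩
  have a2 := D_iter (C := c1 + c2 + c3 + c4) (D_mono (by omega) h2) (D_mono (by omega) h4) i
  have a3 := D_iter (C := c1 + c2 + c3 + c4) (D_mono (by omega) h3) (D_mono (by omega) h4) i
  have e2 : ∀ i : ℕ, (fun t : ℚ => t + 1)^[i] 0 = i := fun i => by
    induction i with
    | zero => simp
    | succ i ih => rw [Function.iterate_succ_apply', ih]; push_cast; ring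
  have e3 : ∀ i : ℕ, (fun t : ℚ => t - 1)^[i] 0 = -i := fun i => by
    induction i with
    | zero => simp
    | succ i ih => rw [Function.iterate_succ_apply', ih]; push_cast; ring
  rw [e2] at a2
  rw [e3] at a3
  have := D_comp (c1 + c2 + c3 + c4) (b := (c1 + c2 + c3 + c4) * (i + 1))
    (g := Fin.cons (fun _ => (i : ℚ)) (Fin.cons (fun _ => -(i : ℚ)) fun j x => x j))
    (D_mono (b := c1 + c2 + c3 + c4) (by omega) h1) ?_
  · convert this using 1
    · rfl
    · funext x
      simp [GQ_diag]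
  · intro j
    refine Fin.cases a2 (fun j => Fin.cases a3 (fun j => ?_) j) j
    exact D_mono (Nat.zero_le _) ⟨j, rfl⟩

/-! ### Metric spaces -/

variable {X : Type} [MetricSpace X] {D : Set ℝ}

lemma ext1 (hX : IsFraisse X D) (h0 : (0 : ℝ) ∈ D) (s : Finset X) (κ : X → ℝ)
    (h1 : ∀ a ∈ s, κ a ∈ D) (h2 : ∀ a ∈ s, ∀ b ∈ s, κ a ≤ κ b + dist a b)
    (h3 : ∀ a ∈ s, ∀ b ∈ s, dist a b ≤ κ a + κ b) : ∃ w, ∀ a ∈ s, dist w a = κ a := by
  classical
  by_cases c : ∃ b ∈ s, κ b = 0
  · obtain ⟨b, hb, e⟩ := c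
    refine ⟨b, fun a ha => ?_⟩
    have := h2 a ha b hb
    have := h3 a ha b hb
    rw [dist_comm]; linarith
  let d : Option s → Option s → ℝ := fun u v => match u, v with
    | none, none => 0
    | none, some b => κ b
    | some a, none => κ a
    | some a, some b => dist a.1 b.1
  have nn : ∀ a ∈ s, 0 ≤ κ a := fun a ha => by have := h3 a ha a ha; simp at this; linarith
  letI : MetricSpace (Option s) :=
    { dist := d
      dist_self := by rintro (_ | a) <;> simp [d]
      dist_comm := by rintro (_ | a) (_ | b) <;> simp [d, dist_comm]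
      dist_triangle := by
        rintro (_ | a) (_ | b) (_ | e) <;> simp only [d]
        · simp
        · simp
        · linarith [nn _ b.2]
        · have := h2 _ e.2 _ b.2; rw [dist_comm] at this; exact this
        · simp
        · exact h3 _ a.2 _ e.2
        · linarith [h2 _ a.2 _ b.2]
        · exact dist_triangle _ _ _
      eq_of_dist_eq_zero := by
        rintro (_ | a) (_ | b) h
        · rfl
        · exact absurd ⟨_, b.2, h⟩ c
        · exact absurd ⟨_, a.2, h⟩ c
        · exact congrArg some (Subtype.ext (eq_of_dist_eq_zero h)) }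
  obtain ⟨e, he⟩ := hX.2.2.1 (Option s) (by
    rintro (_ | a) (_ | b)
    exacts [h0, h1 _ b.2, h1 _ a.2, hX.2.1 _ _])
  obtain ⟨φ, hφ⟩ := hX.2.2.2 s (fun a => if h : a ∈ s then e (some ⟨a, h⟩) else a) fun a ha b hb => by
    rw [dif_pos ha, dif_pos hb, he.dist_eq]; rfl
  refine ⟨φ.symm (e none), fun a ha => ?_⟩
  rw [← φ.dist_eq, φ.apply_symm_apply, hφ a ha, dif_pos ha, he.dist_eq]; rfl

lemma ne_of (hX : IsFraisse X D) (h0 : (0 : ℝ) ∈ D) : Nonempty X := by
  obtain ⟨e, -⟩ := hX.2.2.1 Unit fun x y => by simpa using h0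
  exact ⟨e ()⟩

lemma cloneM : IsClone (PolM X) :=
  ⟨fun _ i x y => dist_le_pi_dist x y i, fun _ _ _ _ hf hg x y =>
    (hf _ _).trans ((dist_pi_le_iff dist_nonneg).2 fun i => hg i x y)⟩

lemma unM {u : X → X} (h : ∀ a b, dist (u a) (u b) ≤ dist a b) : un u ∈ PolM X 0 :=
  fun x y => (h _ _).trans (dist_le_pi_dist x y 0)

theorem notU (hX : IsFraisse X (Set.range ((↑) : ℚ → ℝ))) : ¬ HasBergman (PolM X) := by
  classical
  have h0 : (0 : ℝ) ∈ Set.range ((↑) : ℚ → ℝ) := ⟨0, by simp⟩
  obtain ⟨o⟩ := ne_of hX h0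
  intro h
  have hh := h (fun n => {f | f ∈ PolM X n ∧ dist (f fun _ => o) o ≤ 1})
    ⟨cloneM, fun _ _ h => h.1, fun F hF hH n f hf => ?_⟩ 0
  · obtain ⟨n, hn⟩ := hh
    obtain ⟨c, hc⟩ := ext1 hX h0 {o} (fun _ => n + 1) (fun _ _ => ⟨n + 1, by simp⟩)
      (fun _ _ _ _ => by simp) fun a ha b hb => by
        rw [mem_singleton.1 ha, mem_singleton.1 hb, dist_self]; positivity
    have key : ∀ m : ℕ, ∀ g ∈ Depth (fun n => {f | f ∈ PolM X n ∧ dist (f fun _ => o) o ≤ 1}) 0 m,
        dist (g fun _ => o) o ≤ m := by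
      intro m
      induction m with
      | zero => rintro _ ⟨i, rfl⟩; simp
      | succ m ih =>
        rintro _ (⟨l, f, g, a, b, rfl⟩ | c)
        · have := (a.1 (fun j => g j fun _ => o) fun _ => o).trans
            ((dist_pi_le_iff m.cast_nonneg).2 fun j => ih _ (b j))
          have := dist_triangle (f fun j => g j fun _ => o) (f fun _ => o) o
          push_cast; linarith [a.2]
        · push_cast; linarith [ih _ c]
    have := key n (fun _ => c) (hn ▸ fun x y => by simp)
    rw [hc o (mem_singleton_self o)] at this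
    linarith
  · obtain ⟨N, hN⟩ := exists_nat_ge (dist (f fun _ => o) o)
    induction N generalizing f with
    | zero => exact hH n ⟨hf, hN.trans (by simp)⟩
    | succ N ih =>
      by_cases c : dist (f fun _ => o) o ≤ 1
      · exact hH n ⟨hf, c⟩
      set z := f fun _ => o
      have zo : z ≠ o := by rintro e; rw [e] at c; simp at c
      obtain ⟨q, hq⟩ := hX.2.1 z o
      have hh := ext1 hX h0 {o, z} (fun a => if a = o then 1 else dist z o - 1)
        (fun a _ => by split_ifs; exacts [⟨1, by simp⟩, ⟨q - 1, by simp [hq]⟩]) ?_ ?_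
      · obtain ⟨p, hp⟩ := hh
        obtain ⟨φ, hφ⟩ := hX.2.2.2 {o} (fun _ => p) (by simp)
        have e := hφ o (mem_singleton_self o)
        have p1 := hp o (by simp)
        have p2 := hp z (by simp)
        rw [if_pos rfl] at p1
        rw [if_neg zo] at p2
        have a := ih (f := fun x => φ.symm (f x)) (fun x y => by
          rw [φ.symm.dist_eq]; exact hf x y) (by
          rw [← φ.dist_eq, φ.apply_symm_apply, e, dist_comm, p2]
          push_cast at hN; linarith)
        have b := hH 0 (show un φ ∈ {f | f ∈ PolM X 0 ∧ dist (f fun _ => o) o ≤ 1} from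
          ⟨unM fun a b => (φ.dist_eq a b).le, by simp [un, e, p1]⟩)
        simpa [un] using hF.2 0 n _ (fun _ => _) b fun _ => a
      all_goals
        intro a ha b hb
        simp only [mem_insert, mem_singleton] at ha hb
        have := dist_comm z o
        rcases ha with rfl | rfl <;> rcases hb with rfl | rfl <;> simp [zo] <;> linarith

/-- rational distances at most one -/
def D1 : Set ℝ := {r | r ∈ Set.range ((↑) : ℚ → ℝ) ∧ r ≤ 1}

lemma env (hX : IsFraisse X D1) (s : Finset X) {ι : Type} (T : Finset ι) (p : ι → X) (r : ι → ℝ)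
    (hr : ∀ t, r t ∈ D1) (hc : ∀ t ∈ T, ∀ u ∈ T, dist (p t) (p u) ≤ r t + r u) :
    ∃ w, (∀ a ∈ s, ∀ t ∈ T, dist w a ≤ r t + dist (p t) a) ∧
      ∀ a ∈ s, ∀ c ≤ 1, (∀ t ∈ T, c ≤ r t + dist (p t) a) → c ≤ dist w a := by
  let κ : X → ℝ := fun a => T.fold min 1 fun t => r t + dist (p t) a
  have k1 : ∀ a, κ a ≤ 1 ∧ ∀ t ∈ T, κ a ≤ r t + dist (p t) a := fun a =>
    (le_fold_min _).1 le_rfl
  have k2 : ∀ a, κ a = 1 ∨ ∃ t ∈ T, κ a = r t + dist (p t) a := fun a =>
    ((fold_min_le _).1 (le_refl (κ a))).imp (k1 a).1.antisymm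
      fun ⟨t, ht, h⟩ => ⟨t, ht, ((k1 a).2 t ht).antisymm h⟩
  have k3 : ∀ a, 0 ≤ κ a := fun a => by
    rcases k2 a with e | ⟨t, ht, e⟩ <;> rw [e]
    · simp
    · have := hc t ht t ht
      rw [dist_self] at this
      linarith [dist_nonneg (x := p t) (y := a)]
  have hh := ext1 hX ⟨⟨0, by simp⟩, by simp⟩ s κ (fun a _ => ⟨?_, (k1 a).1⟩)
    (fun a _ b _ => ?_) fun a _ b _ => ?_
  · obtain ⟨w, hw⟩ := hh
    exact ⟨w, fun a ha t ht => hw a ha ▸ (k1 a).2 t ht,
      fun a ha c c1 c2 => hw a ha ▸ (le_fold_min _).2 ⟨c1, c2⟩⟩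
  · rcases k2 a with e | ⟨t, ht, e⟩ <;> rw [e]
    · exact ⟨1, by simp⟩
    · obtain ⟨q, hq⟩ := (hr t).1
      obtain ⟨q', hq'⟩ := (hX.2.1 (p t) a).1
      exact ⟨q + q', by simp [hq, hq']⟩
  · rcases k2 b with e | ⟨t, ht, e⟩ <;> rw [e]
    · linarith [(k1 a).1, dist_nonneg (x := a) (y := b)]
    · linarith [(k1 a).2 t ht, dist_triangle_right (p t) a b, dist_triangle (p t) b a,
        dist_comm a b]
  · have := (hX.2.1 a b).2
    rcases k2 a with e | ⟨t, ht, e⟩
    · linarith [k3 b]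
    rcases k2 b with e' | ⟨u, hu, e'⟩
    · linarith [k3 a]
    linarith [hc t ht u hu, dist_triangle4 a (p t) (p u) b, dist_comm a (p t)]

lemma seqrec {S : Type} [Nonempty S] (P : ℕ → (ℕ → S) → S → Prop)
    (loc : ∀ n u v w, (∀ m < n, u m = v m) → P n u w → P n v w)
    (ex : ∀ n u, (∀ m < n, P m u (u m)) → ∃ w, P n u w) : ∃ u, ∀ n, P n u (u n) := by
  classical
  let U : ℕ → ℕ → S := fun n => Nat.rec (fun _ => Classical.ofNonempty)
    (fun n v => Function.update v n (Classical.epsilon (P n v))) n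
  have hU : ∀ n, U (n + 1) = Function.update (U n) n (Classical.epsilon (P n (U n))) :=
    fun _ => rfl
  have e : ∀ n, ∀ m < n, U n m = U (m + 1) m := by
    intro n
    induction n with
    | zero => simp
    | succ n ih =>
      intro m hm
      rcases (Nat.lt_succ_iff.1 hm).eq_or_lt with rfl | h
      · rfl
      · rw [hU, Function.update_of_ne h.ne, ih m h]
  refine ⟨fun m => U (m + 1) m, fun n => ?_⟩
  induction n using Nat.strong_induction_on with
  | _ n ih =>
    refine loc n (U n) _ _ (e n) ?_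
    simp only [hU, Function.update_self]
    obtain ⟨w, hw⟩ := ex n _ ih
    exact Classical.epsilon_spec ⟨w, loc n _ _ _ (fun m hm => (e n m hm).symm) hw⟩

lemma univ_map (hX : IsFraisse X D1) {Z : Type} [Countable Z] [Nonempty Z] (d : Z → Z → ℝ)
    (hd : ∀ a b, d a b ∈ D1) (d0 : ∀ a, d a a = 0) (ds : ∀ a b, d a b = d b a)
    (dt : ∀ a b c, d a c ≤ d a b + d b c) : ∃ j : Z → X, (∀ a b, dist (j a) (j b) ≤ d a b) ∧
      ∀ g : Z → X, (∀ a b, dist (g a) (g b) ≤ d a b) →
        ∃ G : X → X, (∀ a b, dist (G a) (G b) ≤ dist a b) ∧ ∀ a, G (j a) = g a := by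
  classical
  haveI := hX.1
  haveI := ne_of hX ⟨⟨0, by simp⟩, by simp⟩
  obtain ⟨x, hx⟩ := exists_surjective_nat Z
  obtain ⟨s, hs⟩ := exists_surjective_nat X
  have sym : ∀ (u : ℕ → X) (e : ℕ → ℕ → ℝ), (∀ a b, e a b = e b a) → (∀ a, e a a = 0) → ∀ n,
      (∀ l < n, ∀ m < l, dist (u l) (u m) ≤ e l m) → ∀ l < n, ∀ m < n,
      dist (u l) (u m) ≤ e l m := by
    intro u e e1 e2 n h l hl m hm
    rcases lt_trichotomy m l with c | rfl | c
    · exact h l hl m c
    · simp [e2]
    · rw [dist_comm, e1]; exact h m hm l c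
  have hh := seqrec (S := X) (fun n u w => (∀ m < n, dist w (u m) ≤ d (x n) (x m)) ∧
      ∀ m < n, ∀ a, (a = s m ∨ a = u m) → ∀ c ≤ 1,
        (∀ l < n, c ≤ d (x n) (x l) + dist (u l) a) → c ≤ dist w a) ?_ ?_
  · obtain ⟨y, hy⟩ := hh
    have y1 : ∀ l m, dist (y l) (y m) ≤ d (x l) (x m) := fun l m =>
      sym y _ (fun _ _ => ds _ _) (fun _ => d0 _) (l + m + 1) (fun l _ => (hy l).1) l
        (by omega) m (by omega)
    choose ix hix using hx
    refine ⟨fun a => y (ix a), fun a b => by simpa [hix] using y1 (ix a) (ix b), fun g hg => ?_⟩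
    have up : ∀ n a b, (∃ m < n, a = s m ∨ a = y m) → (∀ l < n, dist (g (x l)) b ≤ dist (y l) a) →
        dist (g (x n)) b ≤ dist (y n) a := by
      rintro n a b ⟨m, hm, h⟩ h'
      exact (hy n).2 m hm a h _ (hX.2.1 _ _).2 fun l hl =>
        (dist_triangle _ (g (x l)) _).trans (add_le_add (hg _ _) (h' l hl))
    have g1 : ∀ n, ∀ l < n, ∀ m < n, dist (g (x l)) (g (x m)) ≤ dist (y l) (y m) := by
      intro n
      induction n with
      | zero => simp
      | succ n ih =>
        refine sym (fun l => g (x l)) _ (fun _ _ => dist_comm _ _) (fun _ => dist_self _) _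
          fun l hl m hm => ?_
        rcases (Nat.lt_succ_iff.1 hl).eq_or_lt with rfl | h
        · exact up l _ _ ⟨m, hm, Or.inr rfl⟩ fun i hi => ih i hi m hm
        · exact ih l h m (hm.trans h)
    have late : ∀ n b, (∀ m ≤ n, dist (g (x m)) b ≤ dist (y m) (s n)) →
        ∀ m, dist (g (x m)) b ≤ dist (y m) (s n) := by
      intro n b h m
      induction m using Nat.strong_induction_on with
      | _ m ih =>
        rcases le_or_gt m n with c | c
        · exact h m c
        · exact up m _ _ ⟨n, c, Or.inl rfl⟩ ih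
    have hh := seqrec (S := X) (fun n u w => (∀ m < n, dist w (u m) ≤ dist (s n) (s m)) ∧
        ∀ m, dist (g (x m)) w ≤ dist (y m) (s n)) ?_ ?_
    · obtain ⟨z, hz⟩ := hh
      have z1 : ∀ l m, dist (z l) (z m) ≤ dist (s l) (s m) := fun l m =>
        sym z _ (fun _ _ => dist_comm _ _) (fun _ => dist_self _) (l + m + 1)
          (fun l _ => (hz l).1) l (by omega) m (by omega)
      choose is his using hs
      refine ⟨fun a => z (is a), fun a b => by simpa [his] using z1 (is a) (is b), fun a => ?_⟩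
      have := (hz (is (y (ix a)))).2 (ix a)
      rw [his, hix, dist_self] at this
      exact (dist_le_zero.1 this).symm
    · exact fun n u v w h h' => ⟨fun m hm => h m hm ▸ h'.1 m hm, h'.2⟩
    · intro n u hu
      have hh := env hX (((range n).disjSum (range (n + 1))).image
        (Sum.elim u fun m => g (x m))) ((range n).disjSum (range (n + 1)))
        (Sum.elim u fun m => g (x m)) (fun t => dist (s n) (Sum.elim s y t))
        (fun _ => hX.2.1 _ _) ?_
      · obtain ⟨w, hw, -⟩ := hh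
        refine ⟨w, fun m hm => ?_, late n w fun m hm => ?_⟩
        · have h : Sum.inl m ∈ (range n).disjSum (range (n + 1)) := by simpa using hm
          simpa using hw _ (mem_image_of_mem _ h) _ h
        · have h : Sum.inr m ∈ (range n).disjSum (range (n + 1)) := by simpa using hm
          simpa [dist_comm] using hw _ (mem_image_of_mem _ h) _ h
      · intro t ht t' ht'
        refine le_trans ?_ (dist_triangle_left _ _ (s n))
        rcases t with t | t <;> rcases t' with t' | t' <;>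
          simp only [inl_mem_disjSum, inr_mem_disjSum, mem_range, Sum.elim_inl,
            Sum.elim_inr] at ht ht' ⊢
        · exact sym u (fun a b => dist (s a) (s b)) (fun _ _ => dist_comm _ _)
            (fun _ => dist_self _) n (fun l hl => (hu l hl).1) t ht t' ht'
        · rw [dist_comm, dist_comm (s t)]; exact (hu t ht).2 t'
        · exact (hu t' ht').2 t
        · exact g1 _ t ht t' ht'
  · rintro n u v w h ⟨h1, h2⟩
    refine ⟨fun m hm => h m hm ▸ h1 m hm, fun m hm a ha c c1 c2 =>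
      h2 m hm a (h m hm ▸ ha) c c1 fun l hl => h l hl ▸ c2 l hl⟩
  · intro n u hu
    have hh := env hX ((range n).image s ∪ (range n).image u) (range n) u
      (fun l => d (x n) (x l)) (fun _ => hd _ _) ?_
    · obtain ⟨w, w1, w2⟩ := hh
      refine ⟨w, fun m hm => ?_, fun m hm a ha c c1 c2 => w2 a ?_ c c1 fun l hl =>
        c2 l (mem_range.1 hl)⟩
      · simpa using w1 _ (mem_union_right _ (mem_image_of_mem u (mem_range.2 hm))) m
          (mem_range.2 hm)
      · rcases ha with rfl | rfl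
        · exact mem_union_left _ (mem_image_of_mem s (mem_range.2 hm))
        · exact mem_union_right _ (mem_image_of_mem u (mem_range.2 hm))
    · intro t ht t' ht'
      refine (sym u (fun a b => d (x a) (x b)) (fun _ _ => ds _ _) (fun _ => d0 _) n
        (fun l hl => (hu l hl).1) t (mem_range.1 ht) t' (mem_range.1 ht')).trans ?_
      simpa only [ds (x t) (x n)] using dt (x t) (x n) (x t')

theorem bergS (hX : IsFraisse X D1) : HasBergman (PolM X) := by
  refine berg fun k f hf H hH => ?_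
  haveI := hX.1
  haveI := ne_of hX ⟨⟨0, by simp⟩, by simp⟩
  have b1 : ∀ a b : Fin (k + 1) → X, dist a b ∈ D1 := fun a b => by
    obtain ⟨i, -, hi⟩ := exists_max_image univ (fun i => dist (a i) (b i)) univ_nonempty
    rw [show dist a b = dist (a i) (b i) from le_antisymm
      ((dist_pi_le_iff dist_nonneg).2 fun j => hi j (mem_univ j)) (dist_le_pi_dist a b i)]
    exact hX.2.1 _ _
  have hh := univ_map hX (Z := (Fin (k + 1) → X) × ℕ)
    (fun a b => if a.2 = b.2 then dist a.1 b.1 else 1)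
    (fun a b => by split_ifs; exacts [b1 _ _, ⟨⟨1, by simp⟩, le_rfl⟩]) (by simp)
    (fun a b => by simp only [eq_comm (a := a.2), dist_comm a.1]) ?_
  · obtain ⟨j, j1, j2⟩ := hh
    obtain ⟨σ, s1, s2⟩ := j2 (fun a => j (a.1, a.2 + 1)) fun a b => by
      simpa using j1 (a.1, a.2 + 1) (b.1, b.2 + 1)
    obtain ⟨E, e1, e2⟩ := j2 (fun a => f a.2 a.1) fun a b => by
      split_ifs with h
      · rw [h]; exact hf _ _ _
      · exact (hX.2.1 _ _).2
    obtain ⟨c1, h1⟩ := hH k (fun x => j (x, 0)) fun a b => by simpa using j1 (a, 0) (b, 0)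
    obtain ⟨c2, h2⟩ := hH 0 _ (unM s1)
    obtain ⟨c3, h3⟩ := hH 0 _ (unM e1)
    refine ⟨c1 + c2 + c3, fun i => ?_⟩
    have := D_un (D_mono (b := c1 + c2 + c3) (by omega) h3)
      (D_iter (C := c1 + c2 + c3) (D_mono (by omega) h2) (D_mono (by omega) h1) i)
    have e : ∀ x (i : ℕ), σ^[i] (j (x, 0)) = j (x, i) := fun x i => by
      induction i with
      | zero => rfl
      | succ i ih => rw [Function.iterate_succ_apply', ih, s2]
    simp only [e, e2] at this
    exact this
  · intro a b c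
    have := (b1 a.1 c.1).2
    have := dist_triangle a.1 b.1 c.1
    have := dist_nonneg (x := a.1) (y := b.1)
    have := dist_nonneg (x := b.1) (y := c.1)
    split_ifs <;> first | linarith | omega

theorem result :
    (∀ (X : Type) [MetricSpace X], IsFraisse X (Set.range ((↑) : ℚ → ℝ)) →
      ¬ HasBergman (PolM X)) ∧
    (∀ (X : Type) [MetricSpace X], IsFraisse X D1 → HasBergman (PolM X)) ∧
    HasBergman PolQ :=
  ⟨fun _ _ => notU, fun _ _ => bergS, bergQ⟩

end Pool.Agent.Results.MP_c74e51_al.Bergman
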